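import Mathlib
import Pool.Agent.N644.PQ.HunA

/-!
# Project PF (helper783), ISO2: symmetric matrices over a finite local ring of odd characteristic
-/

set_option autoImplicit false

namespace Pool.Agent.N747.PF

open Matrix Polynomial Pool.Agent.N644.PQ.HunA

variable {A : Type} [CommRing A]

/-- lifting of squares -/
theorem sq_lift (h2 : IsUnit (2 : A)) {a b : A} (ha : IsUnit a) (h : IsNilpotent (b ^ 2 - a)) :
    ∃ c, c ^ 2 = a := by
  have hb : IsUnit b := by
    have h1 : IsUnit (b ^ 2) := by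
      have h3 := h.isUnit_add_left_of_commute ha (Commute.all _ _)
      rwa [add_sub_cancel] at h3
    exact (isUnit_pow_iff two_ne_zero).mp h1
  obtain ⟨c, ⟨-, hc2⟩, -⟩ := Polynomial.existsUnique_nilpotent_sub_and_aeval_eq_zero
    (P := (X ^ 2 - C a : A[X])) (x := b) (by simpa using h) (by
      simp only [derivative_sub, derivative_X_pow, derivative_C, sub_zero]
      simpa using h2.mul hb)
  refine ⟨c, ?_⟩
  have h4 : c ^ 2 - a = 0 := by simpa using hc2
  exact sub_eq_zero.mp h4

variable [IsLocalRing A]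

/-- representation of units by binary forms -/
theorem rep [Finite A] (hn : ∀ x : A, ¬ IsUnit x → IsNilpotent x) (h2 : IsUnit (2 : A))
    {a b c : A} (ha : IsUnit a) (hb : IsUnit b) (hc : IsUnit c) :
    ∃ x y : A, a * x ^ 2 + b * y ^ 2 = c := by
  classical
  let κ := IsLocalRing.ResidueField A
  let π : A →+* κ := IsLocalRing.residue A
  have hπ : Function.Surjective π := IsLocalRing.residue_surjective
  have : Finite κ := Finite.of_surjective π hπ
  have : Fintype κ := Fintype.ofFinite κ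
  have h2' : (2 : κ) ≠ 0 := by
    have h3 := (h2.map π).ne_zero
    rwa [map_ofNat] at h3
  have ha' : π a ≠ 0 := (ha.map π).ne_zero
  have hb' : π b ≠ 0 := (hb.map π).ne_zero
  have hd1 : degree (C (π a) * X ^ 2) = 2 := degree_C_mul_X_pow 2 ha'
  have hd2 : degree (C (π b) * X ^ 2 - C (π c)) = 2 := by
    rw [degree_sub_eq_left_of_degree_lt]
    · exact degree_C_mul_X_pow 2 hb'
    · rw [degree_C_mul_X_pow 2 hb']
      exact lt_of_le_of_lt degree_C_le (by norm_num)
  have hodd : Fintype.card κ % 2 = 1 := by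
    refine FiniteField.odd_card_of_char_ne_two ?_
    intro h
    apply h2'
    have h3 : ((ringChar κ : ℕ) : κ) = 0 := ringChar.Nat.cast_ringChar
    rw [h] at h3
    exact_mod_cast h3
  obtain ⟨x', y', hxy⟩ := FiniteField.exists_root_sum_quadratic hd1 hd2 hodd
  simp only [eval_mul, eval_C, eval_pow, eval_X, eval_sub] at hxy
  obtain ⟨x, rfl⟩ := hπ x'
  obtain ⟨y, rfl⟩ := hπ y'
  obtain ⟨c', hc'⟩ := hc.exists_right_inv
  -- the value is `c` times a square
  have hm : IsNilpotent (a * x ^ 2 + b * y ^ 2 - c) := by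
    refine hn _ fun hu => ?_
    have h3 := (hu.map π).ne_zero
    apply h3
    rw [map_sub, map_add, map_mul, map_mul, map_pow, map_pow]
    linear_combination hxy
  have hv : IsUnit (c' * (a * x ^ 2 + b * y ^ 2)) := by
    have h3 := hm.isUnit_add_left_of_commute hc (Commute.all _ _)
    rw [add_sub_cancel] at h3
    exact (IsUnit.of_mul_eq_one c (by rw [mul_comm]; exact hc')).mul h3
  obtain ⟨s, hs⟩ := sq_lift h2 hv (b := 1) (by
    have h3 : (1 : A) ^ 2 - c' * (a * x ^ 2 + b * y ^ 2) =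
        (-c') * (a * x ^ 2 + b * y ^ 2 - c) := by linear_combination (-1 : A) * hc'
    rw [h3]
    exact (Commute.all _ _).isNilpotent_mul_left hm)
  have hsu : IsUnit s := (isUnit_pow_iff two_ne_zero).mp (hs ▸ hv)
  obtain ⟨s', hs'⟩ := hsu.exists_right_inv
  refine ⟨x * s', y * s', ?_⟩
  have h5 : a * x ^ 2 + b * y ^ 2 = c * s ^ 2 := by
    rw [hs]
    linear_combination (-(a * x ^ 2 + b * y ^ 2)) * hc'
  calc a * (x * s') ^ 2 + b * (y * s') ^ 2 = (a * x ^ 2 + b * y ^ 2) * s' ^ 2 := by ring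
    _ = c * (s * s') ^ 2 := by rw [h5]; ring
    _ = c := by rw [hs']; ring

/-- the matrix which changes the first two coordinates -/
def two {n : ℕ} (x y z t : A) : Matrix (Fin (n + 2)) (Fin (n + 2)) A :=
  Matrix.of (Fin.cons (Fin.cons x (Fin.cons y fun _ => 0))
    (Fin.cons (Fin.cons z (Fin.cons t fun _ => 0))
      fun i => Fin.cons 0 (Fin.cons 0 ((1 : Matrix (Fin n) (Fin n) A) i))))

omit [IsLocalRing A] in
theorem two_eq {n : ℕ} {x y a b c : A} (h : a * x ^ 2 + b * y ^ 2 = c) (r : Fin n → A) :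
    two x y (-(b * y)) (a * x) * Matrix.diagonal (Fin.cons a (Fin.cons b r)) *
      (two x y (-(b * y)) (a * x))ᵀ =
      Matrix.diagonal (Fin.cons c (Fin.cons (a * b * c) r) : Fin (n + 2) → A) := by
  have e00 : (two x y (-(b * y)) (a * x) : Matrix (Fin (n + 2)) (Fin (n + 2)) A) 0 0 = x := rfl
  have e01 : (two x y (-(b * y)) (a * x) : Matrix (Fin (n + 2)) (Fin (n + 2)) A) 0
    (Fin.succ 0) = y := rfl
  have e0s : ∀ j : Fin n, (two x y (-(b * y)) (a * x) : Matrix (Fin (n + 2)) (Fin (n + 2)) A) 0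
    j.succ.succ = 0 := fun _ => rfl
  have e10 : (two x y (-(b * y)) (a * x) : Matrix (Fin (n + 2)) (Fin (n + 2)) A)
    (Fin.succ 0) 0 = -(b * y) := rfl
  have e11 : (two x y (-(b * y)) (a * x) : Matrix (Fin (n + 2)) (Fin (n + 2)) A)
    (Fin.succ 0) (Fin.succ 0) = a * x := rfl
  have e1s : ∀ j : Fin n, (two x y (-(b * y)) (a * x) : Matrix (Fin (n + 2)) (Fin (n + 2)) A)
    (Fin.succ 0) j.succ.succ = 0 := fun _ => rfl
  have es0 : ∀ j : Fin n, (two x y (-(b * y)) (a * x) : Matrix (Fin (n + 2)) (Fin (n + 2)) A)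
    j.succ.succ 0 = 0 := fun _ => rfl
  have es1 : ∀ j : Fin n, (two x y (-(b * y)) (a * x) : Matrix (Fin (n + 2)) (Fin (n + 2)) A)
    j.succ.succ (Fin.succ 0) = 0 := fun _ => rfl
  have ess : ∀ i j : Fin n, (two x y (-(b * y)) (a * x) : Matrix (Fin (n + 2)) (Fin (n + 2)) A)
    i.succ.succ j.succ.succ = (1 : Matrix (Fin n) (Fin n) A) i j := fun _ _ => rfl
  have key : ∀ i j : Fin (n + 2), ((two x y (-(b * y)) (a * x) *
      Matrix.diagonal (Fin.cons a (Fin.cons b r)) * (two x y (-(b * y)) (a * x))ᵀ :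
      Matrix (Fin (n + 2)) (Fin (n + 2)) A)) i j =
      ∑ k : Fin (n + 2), two x y (-(b * y)) (a * x) i k *
        (Fin.cons a (Fin.cons b r) : Fin (n + 2) → A) k * two x y (-(b * y)) (a * x) j k := by
    intro i j
    rw [Matrix.mul_apply]
    refine Finset.sum_congr rfl fun k _ => ?_
    rw [Matrix.mul_diagonal, Matrix.transpose_apply]
  ext i j
  rw [key, Fin.sum_univ_succ, Fin.sum_univ_succ]
  simp only [Fin.cons_zero, Fin.cons_succ]
  refine Fin.cases ?_ (fun i => Fin.cases ?_ (fun i => ?_) i) i <;>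
    refine Fin.cases ?_ (fun j => Fin.cases ?_ (fun j => ?_) j) j
  · rw [Matrix.diagonal_apply_eq, Fin.cons_zero]
    simp only [e00, e01, e0s, mul_zero, zero_mul, Finset.sum_const_zero, add_zero]
    linear_combination h
  · rw [Matrix.diagonal_apply_ne _ (by simp [Fin.ext_iff])]
    simp only [e00, e01, e0s, e10, e11, e1s, mul_zero, zero_mul, Finset.sum_const_zero, add_zero]
    ring
  · rw [Matrix.diagonal_apply_ne _ (by simp [Fin.ext_iff])]
    simp only [e00, e01, e0s, es0, es1, mul_zero, zero_mul, Finset.sum_const_zero, add_zero]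
  · rw [Matrix.diagonal_apply_ne _ (by simp [Fin.ext_iff])]
    simp only [e00, e01, e0s, e10, e11, e1s, mul_zero, zero_mul, Finset.sum_const_zero, add_zero]
    ring
  · rw [Matrix.diagonal_apply_eq, Fin.cons_succ, Fin.cons_zero]
    simp only [e10, e11, e1s, mul_zero, zero_mul, Finset.sum_const_zero, add_zero]
    linear_combination (a * b) * h
  · rw [Matrix.diagonal_apply_ne _ (by simp [Fin.ext_iff])]
    simp only [e10, e11, e1s, es0, es1, mul_zero, zero_mul, Finset.sum_const_zero, add_zero]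
  · rw [Matrix.diagonal_apply_ne _ (by simp [Fin.ext_iff])]
    simp only [e00, e01, e0s, es0, es1, mul_zero, zero_mul, Finset.sum_const_zero, add_zero]
  · rw [Matrix.diagonal_apply_ne _ (by simp [Fin.ext_iff])]
    simp only [e10, e11, e1s, es0, es1, mul_zero, zero_mul, Finset.sum_const_zero, add_zero]
  · simp only [es0, es1, ess, mul_zero, zero_mul, zero_add]
    by_cases hij : i = j
    · subst hij
      rw [Matrix.diagonal_apply_eq, Fin.cons_succ, Fin.cons_succ, Finset.sum_eq_single i]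
      · simp
      · intro k _ hk
        rw [Matrix.one_apply_ne (Ne.symm hk)]
        simp
      · intro h'
        exact absurd (Finset.mem_univ _) h'
    · rw [Matrix.diagonal_apply_ne _ (fun h' => hij (Fin.succ_injective _ (Fin.succ_injective _ h')))]
      refine Finset.sum_eq_zero fun k _ => ?_
      by_cases hk : i = k
      · subst hk
        rw [Matrix.one_apply_ne (Ne.symm hij)]
        simp
      · rw [Matrix.one_apply_ne hk]
        simp

/-- diagonal forms with the same determinant up to squares -/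
theorem diag_eq [Finite A] (hn : ∀ x : A, ¬ IsUnit x → IsNilpotent x) (h2 : IsUnit (2 : A)) :
    ∀ (n : ℕ) (a b : Fin n → A), (∀ i, IsUnit (a i)) → (∀ i, IsUnit (b i)) →
      (∃ s : A, (∏ i, a i) * ∏ i, b i = s ^ 2) →
      ∃ T : Matrix (Fin n) (Fin n) A, T * Matrix.diagonal a * Tᵀ = Matrix.diagonal b := by
  intro n
  induction n with
  | zero =>
    intro a b _ _ _
    exact ⟨1, by ext i; exact i.elim0⟩
  | succ n ih =>
    intro a b ha hb hs
    cases n with
    | zero =>
      obtain ⟨s, hs⟩ := hs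
      obtain ⟨c, hc⟩ := (ha 0).exists_right_inv
      refine ⟨Matrix.diagonal fun _ => s * c, ?_⟩
      rw [Matrix.diagonal_transpose, Matrix.diagonal_mul_diagonal, Matrix.diagonal_mul_diagonal]
      congr 1
      funext i
      obtain rfl : i = 0 := by
        apply Fin.ext
        have := i.2
        simp only [Fin.val_zero]
        omega
      rw [Fin.prod_univ_one, Fin.prod_univ_one] at hs
      calc s * c * a 0 * (s * c) = s ^ 2 * c * (a 0 * c) := by ring
        _ = a 0 * b 0 * c := by rw [← hs, hc, mul_one]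
        _ = b 0 * (a 0 * c) := by ring
        _ = b 0 := by rw [hc, mul_one]
    | succ n =>
      obtain ⟨s, hs⟩ := hs
      obtain ⟨x, y, hxy⟩ := rep hn h2 (ha 0) (ha 1) (hb 0)
      obtain ⟨r, hr⟩ : ∃ r : Fin n → A, a = Fin.cons (a 0) (Fin.cons (a 1) r) := by
        refine ⟨fun i => a i.succ.succ, ?_⟩
        funext i
        refine Fin.cases rfl (fun i => Fin.cases rfl (fun i => rfl) i) i
      obtain ⟨b', hb'⟩ : ∃ b' : Fin (n + 1) → A, b = Fin.cons (b 0) b' := by
        refine ⟨fun i => b i.succ, ?_⟩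
        funext i
        refine Fin.cases rfl (fun i => rfl) i
      have hrr : ∀ i, r i = a i.succ.succ := by
        intro i
        conv_rhs => rw [hr]
        simp only [Fin.cons_succ]
      have hbb : ∀ i, b' i = b i.succ := by
        intro i
        conv_rhs => rw [hb']
        simp only [Fin.cons_succ]
      obtain ⟨T', hT'⟩ := ih (Fin.cons (a 0 * a 1 * b 0) r) b' (by
          intro i
          refine Fin.cases ?_ (fun i => ?_) i
          · exact ((ha 0).mul (ha 1)).mul (hb 0)
          · rw [Fin.cons_succ, hrr]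
            exact ha _)
        (fun i => by rw [hbb]; exact hb _) (by
          refine ⟨s, ?_⟩
          rw [← hs, Fin.prod_univ_succ, Fin.cons_zero]
          simp only [Fin.cons_succ]
          conv_rhs => rw [Fin.prod_univ_succ (f := a), Fin.prod_univ_succ (f := b)]
          rw [Fin.prod_univ_succ (f := fun i : Fin (n + 1) => a i.succ)]
          simp only [hrr, hbb]
          have : a (Fin.succ 0) = a 1 := rfl
          rw [this]
          ring)
      have h1 := two_eq hxy r
      rw [← hr] at h1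
      refine ⟨blk 1 T' * two x y (-(a 1 * y)) (a 0 * x), ?_⟩
      have h3 : blk 1 T' * two x y (-(a 1 * y)) (a 0 * x) * Matrix.diagonal a *
          (blk 1 T' * two x y (-(a 1 * y)) (a 0 * x))ᵀ =
          blk 1 T' * (two x y (-(a 1 * y)) (a 0 * x) * Matrix.diagonal a *
            (two x y (-(a 1 * y)) (a 0 * x))ᵀ) * (blk 1 T')ᵀ := by
        rw [Matrix.transpose_mul]
        simp only [Matrix.mul_assoc]
      rw [h3, h1, ← blk_diagonal, blk_transpose, blk_mul, blk_mul, one_mul, mul_one, hT',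
        blk_diagonal, ← hb']

/-- symmetric matrices with unit determinants which are equal up to squares are congruent -/
theorem congr_of_det [Finite A] (hn : ∀ x : A, ¬ IsUnit x → IsNilpotent x)
    (h2 : IsUnit (2 : A)) {n : ℕ} {U V : Matrix (Fin n) (Fin n) A} (hU : U.IsSymm)
    (hV : V.IsSymm) (hU' : IsUnit U.det) (hV' : IsUnit V.det)
    (hs : ∃ s : A, U.det * V.det = s ^ 2) :
    ∃ T : Matrix (Fin n) (Fin n) A, T * U * Tᵀ = V := by
  obtain ⟨T1, a, ha, hT1⟩ := diag h2 n U hU hU'
  obtain ⟨T2, b, hb, hT2⟩ := diag h2 n V hV hV'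
  have d1 : T1.det ^ 2 * ∏ i, a i = U.det := by
    rw [← hT1, Matrix.det_mul, Matrix.det_mul, Matrix.det_transpose, Matrix.det_diagonal]
    ring
  have d2 : T2.det ^ 2 * ∏ i, b i = V.det := by
    rw [← hT2, Matrix.det_mul, Matrix.det_mul, Matrix.det_transpose, Matrix.det_diagonal]
    ring
  have u1 : IsUnit T1.det := by
    rw [← d1] at hU'
    exact (isUnit_pow_iff two_ne_zero).mp (isUnit_of_mul_isUnit_left hU')
  have u2 : IsUnit T2.det := by
    rw [← d2] at hV'
    exact (isUnit_pow_iff two_ne_zero).mp (isUnit_of_mul_isUnit_left hV')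
  obtain ⟨c1, hc1⟩ := u1.exists_right_inv
  obtain ⟨c2, hc2⟩ := u2.exists_right_inv
  obtain ⟨s, hs⟩ := hs
  obtain ⟨T', hT'⟩ := diag_eq hn h2 n a b ha hb ⟨s * c1 * c2, by
    calc (∏ i, a i) * ∏ i, b i
        = (T1.det * c1) ^ 2 * (T2.det * c2) ^ 2 * ((∏ i, a i) * ∏ i, b i) := by
          rw [hc1, hc2]; ring
      _ = (T1.det ^ 2 * ∏ i, a i) * (T2.det ^ 2 * ∏ i, b i) * (c1 * c2) ^ 2 := by ring
      _ = (s * c1 * c2) ^ 2 := by rw [d1, d2, hs]; ring⟩
  have hi : T1⁻¹ * T1 = 1 := Matrix.nonsing_inv_mul T1 u1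
  have hi' : T1ᵀ * (T1⁻¹)ᵀ = 1 := by rw [← Matrix.transpose_mul, hi, Matrix.transpose_one]
  refine ⟨T2 * T' * T1⁻¹, ?_⟩
  calc T2 * T' * T1⁻¹ * U * (T2 * T' * T1⁻¹)ᵀ
      = T2 * (T' * ((T1⁻¹ * T1) * Matrix.diagonal a * (T1ᵀ * (T1⁻¹)ᵀ)) * T'ᵀ) * T2ᵀ := by
        rw [← hT1, Matrix.transpose_mul, Matrix.transpose_mul]
        simp only [Matrix.mul_assoc]
    _ = V := by rw [hi, hi', Matrix.one_mul, Matrix.mul_one, hT', hT2]

end Pool.Agent.N747.PF
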